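import Mathlib
import Pool.Agent.CLH.ARIA
import Pool.Agent.CLH.ARIB
import Pool.Agent.CLH.AXIS
import Pool.Agent.CLH.AXP
import Pool.Agent.CLH.CCZ
import Pool.Agent.CLH.D2F
import Pool.Agent.CLH.DEGT
import Pool.Agent.CLH.DEL
import Pool.Agent.CLH.DIG
import Pool.Agent.CLH.FATW
import Pool.Agent.CLH.FIN
import Pool.Agent.CLH.FRM
import Pool.Agent.CLH.GCDD
import Pool.Agent.CLH.GLOB
import Pool.Agent.CLH.HAS
import Pool.Agent.CLH.IND
import Pool.Agent.CLH.LD
import Pool.Agent.CLH.LDL
import Pool.Agent.CLH.LEMR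
import Pool.Agent.CLH.LOC
import Pool.Agent.CLH.LOWP
import Pool.Agent.CLH.LSYS
import Pool.Agent.CLH.MODQ
import Pool.Agent.CLH.MOM
import Pool.Agent.CLH.NC
import Pool.Agent.CLH.NUM
import Pool.Agent.CLH.PENC
import Pool.Agent.CLH.PLN
import Pool.Agent.CLH.RDU
import Pool.Agent.CLH.RL
import Pool.Agent.CLH.ROT
import Pool.Agent.CLH.SMW
import Pool.Agent.CLH.SUBF
import Pool.Agent.CLH.TAU
import Pool.Agent.CLH.TOL
import Pool.Agent.CLH.TWOW
import Pool.Agent.CLH.XI
import Pool.Agent.CLH.YLOW
import Pool.Agent.CLH.YX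

/-!
Minimum weight codewords of the dual point-line code of `PG(n, q)` for odd `q = p ^ h` with `h`
prime, and for composite `h` under a divisibility condition on the minimum weight in the plane.
-/

namespace Pool.Agent.Results.MP_7b21eb_co.PrimeExponent

open Module
open scoped LinearAlgebra.Projectivization

universe u

/-- A codeword of the dual point-line code of the projective space `ℙ K V`: a function from the
points to the field with `p` elements whose values sum to zero on every line. -/
def IsDualWord {p : ℕ} {K V : Type*} [Field K] [AddCommGroup V] [Module K V]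
    (c : ℙ K V → ZMod p) : Prop :=
  ∀ L : Submodule K V, finrank K L = 2 → ∑ᶠ P ∈ {P : ℙ K V | P.submodule ≤ L}, c P = 0

/-- The weight of `c`: the number of points at which it does not vanish. -/
noncomputable def weight {p : ℕ} {K V : Type*} [Field K] [AddCommGroup V] [Module K V]
    (c : ℙ K V → ZMod p) : ℕ :=
  {P : ℙ K V | c P ≠ 0}.ncard

/-- `c` is a codeword of minimum weight of the dual point-line code of `ℙ K V`. -/
def IsMinWeight {p : ℕ} {K V : Type*} [Field K] [AddCommGroup V] [Module K V]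
    (c : ℙ K V → ZMod p) : Prop :=
  IsDualWord c ∧ c ≠ 0 ∧ ∀ c' : ℙ K V → ZMod p, IsDualWord c' → c' ≠ 0 → weight c ≤ weight c'

/-- `c` is a cylinder codeword of `PG(n, K)`: there are a plane `π`, a subspace `ρ` of projective
dimension `n - 3` disjoint from `π` and a codeword `c'` of the dual point-line code of `π` such
that `c` vanishes on the points of `ρ`, and at a point `P` outside `ρ` it takes the value of `c'`
at the point in which the span of `ρ` and `P` meets `π`. -/
def IsCylinder {p : ℕ} {K : Type*} [Field K] (n : ℕ) (c : ℙ K (Fin (n + 1) → K) → ZMod p) :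
    Prop :=
  ∃ (π ρ : Submodule K (Fin (n + 1) → K)) (c' : ℙ K π → ZMod p),
    finrank K π = 3 ∧ finrank K ρ = n - 2 ∧ Disjoint ρ π ∧ IsDualWord c' ∧
      ∀ P : ℙ K (Fin (n + 1) → K),
        (P.submodule ≤ ρ → c P = 0) ∧
        (¬ P.submodule ≤ ρ → ∃ x : ℙ K π,
          (ρ ⊔ P.submodule) ⊓ π = x.submodule.map π.subtype ∧ c P = c' x)

/-- The minimum weight of the dual point-line code of the projective plane `PG(2, K)`. -/
noncomputable def planeMin (p : ℕ) (K : Type*) [Field K] : ℕ :=
  sInf {k | ∃ c : ℙ K (Fin 3 → K) → ZMod p, IsDualWord c ∧ c ≠ 0 ∧ weight c = k}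

open Pool.Agent.CLH in
/-- Let `p` be an odd prime and let `K` be a field with `p ^ h` elements. Suppose that `h` is a
prime number, or that `h ≥ 2` and for no divisor `e` of `h` with `2 ≤ e < h` does `p ^ (h - e)`
divide the minimum weight of the dual point-line code of `PG(2, K)`. Then for every `n > 2` every
codeword of minimum weight of the dual point-line code of `PG(n, K)` is a cylinder codeword. -/
theorem result (p h : ℕ) [Fact p.Prime] (hp : p ≠ 2) (K : Type u) [Field K] [Fintype K]
    (hK : Fintype.card K = p ^ h)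
    (hh : h.Prime ∨ (2 ≤ h ∧ ∀ e, e ∣ h → 2 ≤ e → e < h → ¬ p ^ (h - e) ∣ planeMin p K))
    (n : ℕ) (hn : 2 < n) (c : ℙ K (Fin (n + 1) → K) → ZMod p)
    (hc : IsMinWeight c) : IsCylinder n c := by
  have pln : Stmt_Pln.{u} := pln_proof
  have rl : Stmt_Rl.{u} := rl_proof
  have rot : Stmt_Rot.{u} := rot_proof
  have frm : Stmt_Frm.{u} := frm_proof
  have mom : Stmt_Mom.{u} := mom_proof
  have degt : Stmt_Degt.{u} := degt_proof
  have glob : Stmt_Glob.{u} := glob_proof
  have ind : Stmt_Ind.{u} := ind_proof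
  have smw : Stmt_Smw.{u} := smw_proof
  have lowp : Stmt_Lowp.{u} := lowp_proof
  have aria : Stmt_Aria.{u} := aria_proof
  have arib : Stmt_Arib.{u} := arib_proof
  have num : Stmt_Num.{u} := num_proof
  have lsys : Stmt_Lsys.{u} := lsys_proof pln
  have ylow : Stmt_Ylow.{u} := ylow_proof pln
  have penc : Stmt_Penc.{u} := penc_proof pln
  have rdu : Stmt_Rdu.{u} := rdu_proof pln
  have gcdd : Stmt_Gcdd.{u} := gcdd_proof pln
  have fatw : Stmt_Fatw.{u} := fatw_proof pln lsys
  have nc : Stmt_Nc.{u} := nc_proof pln lsys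
  have lemr : Stmt_Lemr.{u} := lemr_proof rl pln
  have modq : Stmt_Modq.{u} := modq_proof lemr pln
  have twow : Stmt_Twow.{u} := twow_proof modq pln
  have has : Stmt_Has.{u} := has_proof rl rot pln
  have subf : Stmt_Subf.{u} := subf_proof has pln
  have xi : Stmt_Xi.{u} := xi_proof rl rot pln
  have yx : Stmt_Yx.{u} := yx_proof xi pln lsys
  have ld : Stmt_Ld.{u} := ld_proof rl rot pln
  have ldl : Stmt_Ldl.{u} := ldl_proof ld lsys pln
  have dig : Stmt_Dig.{u} := dig_proof lsys yx ylow fatw nc ldl aria arib pln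
  have loc : Stmt_Loc.{u} := loc_proof lsys dig twow rdu gcdd penc subf num pln
  have axis : Stmt_Axis.{u} := axis_proof lsys pln
  have tau : Stmt_Tau.{u} := tau_proof mom degt
  have tol : Stmt_Tol.{u} := tol_proof frm tau
  have axp : Stmt_Axp.{u} := axp_proof tol loc axis
  have d2f : Stmt_D2f.{u} := d2f_proof smw lowp
  have del : Stmt_Del.{u} := del_proof tau d2f
  have ccz : Stmt_Ccz.{u} := ccz_proof del d2f axp glob
  exact fin_proof ind ccz d2f p h hp K hK hh n hn c hc

end Pool.Agent.Results.MP_7b21eb_co.PrimeExponent
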